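import Pool.Agent.Helper77.SND.Stmts
import Pool.Agent.Helper35.PP.Ramsey

set_option autoImplicit false

namespace Pool.Agent.Helper77.SND

theorem rams_key {N : ℕ} (c : Sym2 (Fin N) → Bool) (x y : Fin N) (hxy : x ≠ y) :
    (∃ z w : Fin N, z ≠ w ∧ ({x.val, y.val} : Finset ℕ) = {z.val, w.val} ∧ c s(z, w) = true) ↔
      c s(x, y) = true := by
  constructor
  · rintro ⟨z, w, hzw, h, hc⟩
    have hx : x.val = z.val ∨ x.val = w.val := by
      have : x.val ∈ ({z.val, w.val} : Finset ℕ) := by rw [← h]; simp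
      simpa using this
    have hy : y.val = z.val ∨ y.val = w.val := by
      have : y.val ∈ ({z.val, w.val} : Finset ℕ) := by rw [← h]; simp
      simpa using this
    rcases hx with hx | hx <;> rcases hy with hy | hy
    · exact absurd (Fin.ext (hx.trans hy.symm)) hxy
    · rw [Fin.ext hx, Fin.ext hy]; exact hc
    · rw [Fin.ext hx, Fin.ext hy, Sym2.eq_swap]; exact hc
    · exact absurd (Fin.ext (hx.trans hy.symm)) hxy
  · intro h
    exact ⟨x, y, hxy, rfl, h⟩

theorem st_RAMS : ST_RAMS := by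
  intro m H
  obtain ⟨N, hN⟩ := Pool.Agent.Helper35.PP.finite_ramsey 2 m
  refine ⟨N, fun c hg => ?_⟩
  obtain ⟨T, hT, hTc, hom⟩ := hN (Finset.range N) (by simp) (fun A =>
    ∃ z w : Fin N, z ≠ w ∧ A = {z.val, w.val} ∧ c s(z, w) = true)
  have hlt : ∀ x : Fin m, T.orderEmbOfFin hTc x < N := fun x =>
    Finset.mem_range.1 (hT (Finset.orderEmbOfFin_mem T hTc x))
  let f : Fin m → Fin N := fun x => ⟨T.orderEmbOfFin hTc x, hlt x⟩
  have hf : Function.Injective f := by
    intro x y h
    exact (T.orderEmbOfFin hTc).injective (Fin.mk.inj_iff.1 h)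
  have hcopy : Copy H (⊤ : SimpleGraph (Fin N)) f :=
    ⟨hf, fun x y h => by rw [SimpleGraph.top_adj]; exact fun e => h.ne (hf e)⟩
  have hall : ∀ x y x' y' : Fin m, x ≠ y → x' ≠ y' →
      (c s(f x, f y) = true ↔ c s(f x', f y') = true) := by
    intro x y x' y' h h'
    have hs : ∀ x y : Fin m, ({(f x).val, (f y).val} : Finset ℕ) ⊆ T := by
      intro x y z hz
      rw [Finset.mem_insert, Finset.mem_singleton] at hz
      rcases hz with rfl | rfl <;> exact Finset.orderEmbOfFin_mem T hTc _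
    have hc : ∀ x y : Fin m, x ≠ y → ({(f x).val, (f y).val} : Finset ℕ).card = 2 := by
      intro x y h
      exact Finset.card_pair (fun e => h (hf (Fin.ext e)))
    rw [← rams_key c (f x) (f y) (fun e => h (hf e)),
      ← rams_key c (f x') (f y') (fun e => h' (hf e))]
    exact hom _ _ (hs x y) (hs x' y') (hc x y h) (hc x' y' h')
  by_cases hex : ∃ x y : Fin m, x ≠ y ∧ c s(f x, f y) = true
  · obtain ⟨x, y, hxy, hc⟩ := hex
    obtain ⟨x', y', h', hne⟩ := hg true f hcopy
    exact hne ((hall x y x' y' hxy h'.ne).1 hc)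
  · obtain ⟨x', y', h', hne⟩ := hg false f hcopy
    apply hex
    refine ⟨x', y', h'.ne, ?_⟩
    cases h : c s(f x', f y')
    · exact absurd h hne
    · rfl

end Pool.Agent.Helper77.SND
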